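import Pool.Agent.H242.LD.Stm2

/-!
# LE-NUM2: numerical inequalities (project LE of helper242)
-/

set_option autoImplicit false

namespace Pool.Agent.H44.LE

open Pool.Agent.H242.LD Pool.Agent.H242.TM Real

theorem le_NUM2 : S_NUM2 := by
  intro a ω ha hω hω2
  set A : ℝ := |a| with hA
  have hA0 : 0 < A := by linarith
  have hsA : 31 ≤ √A := by
    apply Real.le_sqrt_of_sq_le
    norm_num
    linarith
  have hsA0 : 0 < √A := by linarith
  have hsq : √A * √A = A := Real.mul_self_sqrt hA0.le
  have hω0 : 0 < ω := lt_of_lt_of_le (by positivity) hω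
  have h1 : 1 ≤ √A * ω := by
    rw [div_le_iff₀ hsA0] at hω
    linarith
  have h2 : √A ≤ A * ω := by
    calc √A = √A * 1 := (mul_one _).symm
      _ ≤ √A * (√A * ω) := mul_le_mul_of_nonneg_left h1 hsA0.le
      _ = A * ω := by rw [← mul_assoc, hsq]
  have h31 : 31 ≤ A * ω := hsA.trans h2
  have hA2 : 1 ≤ A * ω ^ 2 := by
    calc (1 : ℝ) = 1 * 1 := by norm_num
      _ ≤ (√A * ω) * (√A * ω) := mul_le_mul h1 h1 zero_le_one (by positivity)
      _ = A * ω ^ 2 := by rw [show (√A * ω) * (√A * ω) = (√A * √A) * ω ^ 2 by ring, hsq]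
  have hpi := Real.pi_gt_three
  have hpi2 : π < 3.1416 := Real.pi_lt_d4
  have hpi3 : 3.1415 < π := Real.pi_gt_d4
  -- the size of `m`
  set m : ℝ := mm a ω with hm
  have hsin : 4 * ω ≤ Real.sin (2 * π * ω) := by
    have h := Real.mul_le_sin (x := 2 * π * ω) (by positivity) (by nlinarith)
    calc 4 * ω = 2 / π * (2 * π * ω) := by field_simp; ring
      _ ≤ _ := h
  have hmlow : 25 * (A * ω) - 2 ≤ m := by
    have h3 : 2 * π * A * (4 * ω) ≤ 2 * π * A * Real.sin (2 * π * ω) :=
      mul_le_mul_of_nonneg_left hsin (by positivity)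
    have h4 : 25 * (A * ω) ≤ 2 * π * A * (4 * ω) := by
      have : 0 ≤ A * ω := by positivity
      nlinarith
    have h5 : m = 2 * π * A * Real.sin (2 * π * ω) - 2 := rfl
    rw [h5]
    linarith
  have hm700 : 700 ≤ m := by linarith
  have hL3 : 3 < Real.log (A * ω) := by
    rw [Real.lt_log_iff_exp_lt (by positivity)]
    have h3 : Real.exp 3 = Real.exp 1 ^ 3 := by
      rw [← Real.exp_nat_mul]
      norm_num
    have h4 : Real.exp 1 < 3 := by
      have := Real.exp_one_lt_d9
      linarith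
    have h5 : Real.exp 1 ^ 3 < 3 ^ 3 := pow_lt_pow_left₀ h4 (Real.exp_pos _).le (by norm_num)
    rw [h3]
    linarith
  set L : ℝ := Real.log (A * ω) with hL
  have hL0 : 0 < L := by linarith
  refine ⟨by linarith, ?_, ?_, ?_, ?_, ?_⟩
  · -- second
    have hp2 : π ^ 2 < 10 := by nlinarith
    have hx : 625 * (A * ω) ^ 2 - 175 * (A * ω) ≤ m * (m - 3) := by
      have h3 : 0 ≤ 25 * (A * ω) - 5 := by linarith
      have h4 : (25 * (A * ω) - 2) * (25 * (A * ω) - 5) ≤ m * (m - 3) :=
        mul_le_mul hmlow (by linarith) h3 (by linarith)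
      nlinarith
    have h5 : A ≤ (A * ω) ^ 2 := by
      calc A = A * 1 := (mul_one _).symm
        _ ≤ A * (A * ω ^ 2) := mul_le_mul_of_nonneg_left hA2 hA0.le
        _ = (A * ω) ^ 2 := by ring
    have h6 : 175 * (A * ω) ≤ 175 / 16 * A := by nlinarith
    rw [le_div_iff₀ (by norm_num)]
    nlinarith
  · -- third
    refine lt_of_lt_of_le ?_ hω
    apply one_div_lt_one_div_of_lt hsA0
    nlinarith
  · rw [sub_pos, div_lt_one hL0]
    linarith
  · have : 0 < 13 * ω / L := by positivity
    linarith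
  · have e1 : (1 : ℝ) - (1 - 13 * ω / L) = 13 * ω / L := by ring
    rw [e1]
    have hb : A * ω ≤ (m - 1) / 2 := by linarith
    have hB : Real.exp (13 * ω) ≤ ((m - 1) / 2) ^ (13 * ω / L) := by
      calc Real.exp (13 * ω) = (A * ω) ^ (13 * ω / L) := by
            rw [Real.rpow_def_of_pos (by positivity), ← hL]
            congr 1
            field_simp
        _ ≤ _ := Real.rpow_le_rpow (by positivity) hb (by positivity)
    have h7 : 0 < 1 - 7 * ω := by linarith
    have hC : Real.exp (-(25 / 2 * ω)) ≤ 1 - 7 * ω := by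
      rw [← Real.le_log_iff_exp_le h7]
      refine le_trans ?_ (Real.one_sub_inv_le_log_of_pos h7)
      have : (1 - 7 * ω)⁻¹ ≤ 1 + 25 / 2 * ω := by
        rw [inv_le_iff_one_le_mul₀ h7]
        nlinarith
      linarith
    have hm5 : 0 < m - 5 := by linarith
    have hm1 : 0 < m - 1 := by linarith
    have hx0 : 1 - 4 / (m - 1) = (m - 5) / (m - 1) := by
      field_simp
      ring
    have hD : Real.exp (-(1 / 6 * ω)) ≤ 1 - 4 / (m - 1) := by
      rw [hx0, ← Real.le_log_iff_exp_le (by positivity)]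
      refine le_trans ?_ (Real.one_sub_inv_le_log_of_pos (by positivity))
      have h8 : ((m - 5) / (m - 1))⁻¹ = 1 + 4 / (m - 5) := by
        rw [inv_div]
        field_simp
        ring
      rw [h8]
      have h9 : 4 / (m - 5) ≤ 1 / 6 * ω := by
        rw [div_le_iff₀ hm5]
        have h10 : 24 * (A * ω) ≤ m - 5 := by linarith
        have h11 : 1 / 6 * ω * (24 * (A * ω)) ≤ 1 / 6 * ω * (m - 5) :=
          mul_le_mul_of_nonneg_left h10 (by positivity)
        have h12 : 1 / 6 * ω * (24 * (A * ω)) = 4 * (A * ω ^ 2) := by ring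
        linarith
      linarith
    calc (1 : ℝ) ≤ Real.exp (1 / 3 * ω) := Real.one_le_exp (by positivity)
      _ = Real.exp (13 * ω) * (Real.exp (-(25 / 2 * ω)) * Real.exp (-(1 / 6 * ω))) := by
          rw [← Real.exp_add, ← Real.exp_add]
          congr 1
          ring
      _ ≤ ((m - 1) / 2) ^ (13 * ω / L) * ((1 - 7 * ω) * (1 - 4 / (m - 1))) := by
          apply mul_le_mul hB _ (by positivity) (by positivity)
          exact mul_le_mul hC hD (Real.exp_pos _).le h7.le

end Pool.Agent.H44.LE
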